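import Mathlib
import Pool.Agent.R989.GauJ

open MeasureTheory Matrix Module
open scoped ENNReal

namespace Pool.Agent.Results.MP_467638_an.SketchLowerBound

open Pool.Agent.R989.GauH Pool.Agent.R989.Pinv

/-- The assertion of Q1 for the field `K` (with constant `α = α_K`): for every law `μ` of a
full-rank random embedding, all `d`, `p ≥ 1`, `r ≤ d` with `r + α < l` and every measurable algorithm,
the supremum over all `A` of rank `r` and all `B ≠ A A⁺ B` of the ratio of the expected squared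
residual and the optimal squared residual is at least
`1 + (n - l)/(n - r) * r/(l - r - α)`. -/
def LowerBound (K : Type) [RCLike K] (α : ℝ) : Prop :=
  ∀ (n l : ℕ), 1 ≤ l → l ≤ n →
  ∀ μ : Measure (Matrix (Fin n) (Fin l) K), IsProbabilityMeasure μ → (∀ᵐ Ω ∂μ, Ω.rank = l) →
  ∀ d p r : ℕ, 0 < p → r ≤ d → (r : ℝ) + α < l →
  ∀ ALG : Matrix (Fin n) (Fin l) K → Matrix (Fin l) (Fin d) K → Matrix (Fin l) (Fin p) K →
      Matrix (Fin d) (Fin p) K,
  (Measurable fun q : Matrix (Fin n) (Fin l) K × Matrix (Fin l) (Fin d) K × Matrix (Fin l) (Fin p) K =>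
      ALG q.1 q.2.1 q.2.2) →
  ENNReal.ofReal (1 + ((n : ℝ) - l) / ((n : ℝ) - r) * ((r : ℝ) / ((l : ℝ) - r - α))) ≤
    ⨆ (A : Matrix (Fin n) (Fin d) K) (B : Matrix (Fin n) (Fin p) K) (_ : A.rank = r)
      (_ : B ≠ A * pinv A * B),
      (∫⁻ Ω, ENNReal.ofReal (frobSq (B - A * ALG Ω (Ωᴴ * A) (Ωᴴ * B))) ∂μ) /
        ENNReal.ofReal (frobSq (B - A * pinv A * B))

lemma frobSq_pos {K : Type} [RCLike K] {m n : ℕ} {M : Matrix (Fin m) (Fin n) K} (hM : M ≠ 0) :
    0 < frobSq M := by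
  obtain ⟨i, j, hij⟩ : ∃ i j, M i j ≠ 0 := by
    by_contra h
    push Not at h
    exact hM (by ext i j; exact h i j)
  unfold frobSq
  apply Finset.sum_pos' (fun _ _ => Finset.sum_nonneg fun _ _ => sq_nonneg _)
  refine ⟨i, Finset.mem_univ i, ?_⟩
  apply Finset.sum_pos' (fun _ _ => sq_nonneg _)
  exact ⟨j, Finset.mem_univ j, by positivity⟩

theorem general (K : Type) [RCLike K] (α : ℝ) (hα0 : 0 ≤ α)
    (hα : (finrank ℝ K : ℝ) * (1 + α) = 2) : LowerBound K α := by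
  intro n l hl1 hln μ hμp hμ d p r hp hrd hrl ALG hALG
  have := hμp
  set s : ℝ≥0∞ := ⨆ (A : Matrix (Fin n) (Fin d) K) (B : Matrix (Fin n) (Fin p) K) (_ : A.rank = r)
      (_ : B ≠ A * pinv A * B),
      (∫⁻ Ω, ENNReal.ofReal (frobSq (B - A * ALG Ω (Ωᴴ * A) (Ωᴴ * B))) ∂μ) /
        ENNReal.ofReal (frobSq (B - A * pinv A * B)) with hs
  have hs2 : ∀ (A : Matrix (Fin n) (Fin d) K) (B : Matrix (Fin n) (Fin p) K), A.rank = r →
      B ≠ A * pinv A * B →
      ∫⁻ Ω, ENNReal.ofReal (frobSq (B - A * ALG Ω (Ωᴴ * A) (Ωᴴ * B))) ∂μ ≤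
        s * ENNReal.ofReal (frobSq (B - A * pinv A * B)) := by
    intro A B hA hB
    have hpos : 0 < frobSq (B - A * pinv A * B) := frobSq_pos (sub_ne_zero.mpr hB)
    rw [← ENNReal.div_le_iff_le_mul (Or.inl (by simpa using hpos)) (Or.inl ENNReal.ofReal_ne_top)]
    exact le_iSup_of_le A (le_iSup_of_le B (le_iSup_of_le hA (le_iSup_of_le hB le_rfl)))
  have hrl' : r < l := by
    have : (r : ℝ) < l := by linarith
    exact_mod_cast this
  have hβ : 0 < finrank ℝ K := Module.finrank_pos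
  have hβ' : (0 : ℝ) < (finrank ℝ K : ℝ) := by exact_mod_cast hβ
  have hm : 2 < finrank ℝ K * (l - r + 1) := by
    have : (2 : ℝ) < ((finrank ℝ K * (l - r + 1) : ℕ) : ℝ) := by
      push_cast [Nat.cast_sub hrl'.le]
      rw [← hα]
      apply mul_lt_mul_of_pos_left _ hβ'
      linarith
    exact_mod_cast this
  have hmain := main_ineq hrd hp hln hrl' hm μ hμ ALG hALG s hs2
  by_cases hst : s = ⊤
  · rw [hst]; exact le_top
  obtain ⟨s', hs'⟩ : ∃ s' : ℝ, 0 ≤ s' ∧ s = ENNReal.ofReal s' :=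
    ⟨s.toReal, ENNReal.toReal_nonneg, (ENNReal.ofReal_toReal hst).symm⟩
  rw [hs'.2] at hmain ⊢
  have hlr : (0 : ℝ) < (l : ℝ) - r - α := by linarith
  have hden : (((finrank ℝ K * (l - r + 1) : ℕ) : ℝ) - 2) = (finrank ℝ K : ℝ) * ((l : ℝ) - r - α) := by
    push_cast [Nat.cast_sub hrl'.le]
    linear_combination hα
  rw [hden] at hmain
  have hnl : (0 : ℝ) ≤ (n : ℝ) - l := by
    have : (l : ℝ) ≤ n := by exact_mod_cast hln
    linarith
  have hnr : (0 : ℝ) < (n : ℝ) - r := by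
    have : (r : ℝ) < n := by exact_mod_cast (by omega : r < n)
    linarith
  have e1 : ((finrank ℝ K * (l - r) : ℕ) : ℝ≥0∞) = ENNReal.ofReal ((finrank ℝ K : ℝ) * ((l : ℝ) - r)) := by
    rw [← ENNReal.ofReal_natCast]
    push_cast [Nat.cast_sub hrl'.le]
    rfl
  have e2 : ((finrank ℝ K * (n - l) : ℕ) : ℝ≥0∞) = ENNReal.ofReal ((finrank ℝ K : ℝ) * ((n : ℝ) - l)) := by
    rw [← ENNReal.ofReal_natCast]
    push_cast [Nat.cast_sub hln]
    rfl
  have e3 : ((finrank ℝ K * (n - r) : ℕ) : ℝ≥0∞) = ENNReal.ofReal ((finrank ℝ K : ℝ) * ((n : ℝ) - r)) := by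
    rw [← ENNReal.ofReal_natCast]
    push_cast [Nat.cast_sub (show r ≤ n by omega)]
    rfl
  have e4 : (r : ℝ≥0∞) = ENNReal.ofReal (r : ℝ) := by simp
  have e5 : (1 : ℝ≥0∞) = ENNReal.ofReal 1 := by simp
  have hlr0 : (0 : ℝ) ≤ (l : ℝ) - r := by linarith
  rw [e1, e2, e3, e4, ← ENNReal.ofReal_mul hβ'.le, ← ENNReal.ofReal_mul (by positivity)] at hmain
  rw [e5, ← ENNReal.ofReal_add (by norm_num) (by positivity), ← ENNReal.ofReal_mul (by positivity),
    ← ENNReal.ofReal_add (by positivity) (by positivity), ← ENNReal.ofReal_mul hs'.1,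
    ENNReal.ofReal_le_ofReal_iff (by have := hs'.1; positivity)] at hmain
  apply ENNReal.ofReal_le_ofReal
  have h6 : ((n : ℝ) - r) * (1 + ((n : ℝ) - l) / ((n : ℝ) - r) * ((r : ℝ) / ((l : ℝ) - r - α))) ≤
      ((n : ℝ) - r) * s' := by
    have h7 : ((n : ℝ) - r) * (1 + ((n : ℝ) - l) / ((n : ℝ) - r) * ((r : ℝ) / ((l : ℝ) - r - α))) =
        ((l : ℝ) - r) + ((n : ℝ) - l) * (1 + r / ((l : ℝ) - r - α)) := by
      field_simp
      ring
    rw [h7]
    have h8 : (finrank ℝ K : ℝ) * (((l : ℝ) - r) + ((n : ℝ) - l) * (1 + r / ((l : ℝ) - r - α))) ≤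
        (finrank ℝ K : ℝ) * (((n : ℝ) - r) * s') := by
      calc (finrank ℝ K : ℝ) * (((l : ℝ) - r) + ((n : ℝ) - l) * (1 + r / ((l : ℝ) - r - α)))
          = (finrank ℝ K : ℝ) * ((l : ℝ) - r) + (finrank ℝ K : ℝ) * ((n : ℝ) - l) *
            (1 + r * ((finrank ℝ K : ℝ) * (1 / ((finrank ℝ K : ℝ) * ((l : ℝ) - r - α))))) := by
            field_simp
        _ ≤ s' * ((finrank ℝ K : ℝ) * ((n : ℝ) - r)) := hmain
        _ = _ := by ring
    exact le_of_mul_le_mul_left h8 hβ'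
  exact le_of_mul_le_mul_left h6 hnr

theorem result : LowerBound ℝ 1 ∧ LowerBound ℂ 0 := by
  constructor
  · apply general ℝ 1 (by norm_num)
    simp
    norm_num
  · apply general ℂ 0 (by norm_num)
    simp [Complex.finrank_real_complex]

end Pool.Agent.Results.MP_467638_an.SketchLowerBound
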